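import Pool.Agent.R124.IP.Dim1

set_option autoImplicit false

open MeasureTheory Matrix Set
open scoped Pointwise
open Pool.Agent.H845R2
open R124.IP

namespace R124.NF

variable {d : ℕ}

/-- covering by translates of a smaller copy -/
lemma cover_pack {H : Type} [AddCommGroup H] (T : H →+ (Fin d → ℝ)) {K : Set (Fin d → ℝ)}
    (hK : CB K) (hfin : (pts T K).Finite) (s : ℝ) (hs : 0 < s) (hs1 : s ≤ 1) :
    ∃ F : Finset H, F.card * (pts T ((s / 4) • K)).ncard ≤ (pts T ((4 : ℝ) • K)).ncard ∧
      ∀ x ∈ pts T K, ∃ g ∈ F, T (x - g) ∈ s • K := by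
  classical
  set L := hfin.toFinset with hL
  set S : Finset (Finset H) := L.powerset.filter
    (fun F => ∀ f ∈ F, ∀ g ∈ F, f ≠ g → T (f - g) ∉ s • K) with hS
  have hSne : S.Nonempty := ⟨∅, by simp [hS]⟩
  obtain ⟨F, hF, hmax⟩ := Finset.exists_max_image S Finset.card hSne
  rw [hS, Finset.mem_filter, Finset.mem_powerset] at hF
  have h0s : (0 : Fin d → ℝ) ∈ s • K := ⟨0, zero_mem hK, by simp⟩
  have hsym : ∀ y : Fin d → ℝ, y ∈ s • K → -y ∈ s • K := by
    rintro _ ⟨k, hk, rfl⟩
    exact ⟨-k, hK.symm k hk, by simp⟩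
  refine ⟨F, ?_, ?_⟩
  · have hf1 := pts_fin T hK hfin (s / 4) (by linarith)
    have hf2 := pts_fin T hK hfin 4 (by norm_num)
    rw [Set.ncard_eq_toFinset_card _ hf1, Set.ncard_eq_toFinset_card _ hf2, ← Finset.card_product]
    apply Finset.card_le_card_of_injOn (fun p => p.1 + p.2)
    · rintro ⟨f, u⟩ hp
      rw [Finset.mem_coe, Finset.mem_product, Set.Finite.mem_toFinset] at hp
      rw [Finset.mem_coe, Set.Finite.mem_toFinset]
      obtain ⟨k, hk, hku⟩ := hp.2
      have hfK : T f ∈ K := by
        have := hF.1 hp.1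
        rw [hL, Set.Finite.mem_toFinset] at this
        exact this
      show T (f + u) ∈ (4 : ℝ) • K
      have h1 : T (f + u) = (1 : ℝ) • T f + (s / 4) • k := by
        rw [map_add, one_smul]
        congr 1
        exact hku.symm
      rw [h1]
      exact smul_mono hK (by linarith) (by linarith)
        (mem_smul_of_cb hK hfK hk 1 (s / 4) (by norm_num) (by linarith) (by linarith))
    · rintro ⟨f, u⟩ hp ⟨g, v⟩ hq heq
      rw [Finset.mem_coe, Finset.mem_product, Set.Finite.mem_toFinset] at hp hq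
      simp only at heq hp hq
      by_cases hfg : f = g
      · subst hfg
        rw [add_left_cancel heq]
      · exfalso
        apply hF.2 f hp.1 g hq.1 hfg
        obtain ⟨k, hk, hku⟩ := hp.2
        obtain ⟨l, hl, hlv⟩ := hq.2
        have h1 : f - g = v - u := by
          rw [sub_eq_sub_iff_add_eq_add, heq, add_comm]
        have h2 : T (f - g) = (s / 4) • l + (s / 4) • (-k) := by
          rw [h1, map_sub, smul_neg, ← sub_eq_add_neg]
          congr 1
          · exact hlv.symm
          · exact hku.symm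
        rw [h2]
        exact smul_mono hK (by linarith) (by linarith)
          (mem_smul_of_cb hK hl (hK.symm k hk) (s / 4) (s / 4) (by linarith) (by linarith)
            (by linarith))
  · intro x hx
    by_contra hcon
    push Not at hcon
    have hxF : x ∉ F := by
      intro h
      apply hcon x h
      rw [sub_self, map_zero]
      exact h0s
    have h1 : insert x F ∈ S := by
      rw [hS, Finset.mem_filter, Finset.mem_powerset]
      refine ⟨?_, ?_⟩
      · intro y hy
        rcases Finset.mem_insert.1 hy with rfl | hy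
        · rw [hL, Set.Finite.mem_toFinset]; exact hx
        · exact hF.1 hy
      · intro f hf g hg hne
        rcases Finset.mem_insert.1 hf with hf' | hf'
        · rcases Finset.mem_insert.1 hg with hg' | hg'
          · exact absurd (hf'.trans hg'.symm) hne
          · rw [hf']; exact hcon g hg'
        · rcases Finset.mem_insert.1 hg with hg' | hg'
          · intro h
            apply hcon f hf'
            have := hsym _ h
            rw [← map_neg, neg_sub, hg'] at this
            exact this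
          · exact hF.2 f hf' g hg' hne
    have h2 := hmax _ h1
    rw [Finset.card_insert_of_notMem hxF] at h2
    omega

lemma pts_one_le {H : Type} [AddCommGroup H] (T : H →+ (Fin d → ℝ)) {K : Set (Fin d → ℝ)}
    (hK : CB K) (hfin : (pts T K).Finite) (s : ℝ) (hs : 0 ≤ s) : 1 ≤ (pts T (s • K)).ncard := by
  have : 0 < (pts T (s • K)).ncard := by
    rw [Set.ncard_pos (pts_fin T hK hfin s hs)]
    exact ⟨0, by
      show T 0 ∈ s • K
      rw [map_zero]
      exact ⟨0, zero_mem hK, by simp⟩⟩
  exact this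

/-- small copies contain only the origin -/
lemma exists_small {H : Type} [AddCommGroup H] (T : H →+ (Fin d → ℝ))
    (hinj : Function.Injective T) {K : Set (Fin d → ℝ)}
    (hK : CB K) (hfin : (pts T K).Finite) : ∃ j : ℕ, (pts T (((1 / 4 : ℝ) ^ j) • K)).ncard ≤ 1 := by
  classical
  obtain ⟨R, hR1, hR⟩ := hK.exists_R
  have hR0 : 0 < R := by linarith
  have h1 : ∀ x : H, ∃ j : ℕ, x ≠ 0 → (1 / 4 : ℝ) ^ j < ‖T x‖ / R := by
    intro x
    by_cases hx : x = 0
    · exact ⟨0, fun h => absurd hx h⟩
    · have h2 : 0 < ‖T x‖ := norm_pos_iff.2 (fun h => hx ((map_eq_zero_iff T hinj).1 h))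
      obtain ⟨j, hj⟩ := exists_pow_lt_of_lt_one (div_pos h2 hR0) (show (1 / 4 : ℝ) < 1 by norm_num)
      exact ⟨j, fun _ => hj⟩
  choose J hJ using h1
  refine ⟨hfin.toFinset.sup J, ?_⟩
  have hsub : pts T (((1 / 4 : ℝ) ^ (hfin.toFinset.sup J)) • K) ⊆ {0} := by
    intro x hx
    by_contra hne
    rw [Set.mem_singleton_iff] at hne
    have hxK : x ∈ pts T K := by
      have : T x ∈ (1 : ℝ) • K :=
        smul_mono hK (by positivity) (pow_le_one₀ (by norm_num) (by norm_num)) hx
      rw [one_smul] at this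
      exact this
    have h2 : J x ≤ hfin.toFinset.sup J :=
      Finset.le_sup (f := J) (by rw [Set.Finite.mem_toFinset]; exact hxK)
    have h3 := hJ x hne
    have h4 : (1 / 4 : ℝ) ^ (hfin.toFinset.sup J) ≤ (1 / 4) ^ (J x) :=
      pow_le_pow_of_le_one (by norm_num) (by norm_num) h2
    obtain ⟨k, hk, hkx⟩ := hx
    have h5 : ‖T x‖ ≤ (1 / 4 : ℝ) ^ (hfin.toFinset.sup J) * R := by
      have h6 : T x = (1 / 4 : ℝ) ^ (hfin.toFinset.sup J) • k := hkx.symm
      rw [h6, norm_smul, Real.norm_eq_abs, abs_of_nonneg (by positivity)]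
      exact mul_le_mul_of_nonneg_left (hR k hk) (by positivity)
    rw [lt_div_iff₀ hR0] at h3
    have h7 := mul_le_mul_of_nonneg_right h4 hR0.le
    linarith
  calc (pts T (((1 / 4 : ℝ) ^ (hfin.toFinset.sup J)) • K)).ncard ≤ ({0} : Set H).ncard :=
        Set.ncard_le_ncard hsub (Set.finite_singleton _)
    _ = 1 := Set.ncard_singleton _

/-- shrinking a body until it has at most `n` lattice points -/
theorem shrink {H : Type} [AddCommGroup H] (T : H →+ (Fin d → ℝ))
    (hinj : Function.Injective T) {K : Set (Fin d → ℝ)}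
    (hK : CB K) (hfin : (pts T K).Finite) (n M : ℕ) (hn : 1 ≤ n)
    (hM : (pts T K).ncard ≤ M * n) :
    ∃ s : ℝ, 0 < s ∧ (pts T (s • K)).ncard ≤ n ∧
      ∃ F : Finset H, F.card ≤ 4913 ^ d * M ∧ ∀ x ∈ pts T K, ∃ g ∈ F, T (x - g) ∈ s • K := by
  classical
  have hex : ∃ j : ℕ, (pts T (((1 / 4 : ℝ) ^ j) • K)).ncard ≤ n := by
    obtain ⟨j, hj⟩ := exists_small T hinj hK hfin
    exact ⟨j, hj.trans hn⟩
  have hM1 : 1 ≤ M := by
    have h1 := pts_one_le T hK hfin 1 zero_le_one
    rw [one_smul] at h1
    rcases Nat.eq_zero_or_pos M with h | h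
    · rw [h, zero_mul] at hM; omega
    · exact h
  rcases Nat.eq_zero_or_pos (Nat.find hex) with h0 | hpos
  · refine ⟨1, one_pos, ?_, {0}, ?_, ?_⟩
    · have := Nat.find_spec hex
      rw [h0, pow_zero] at this
      exact this
    · rw [Finset.card_singleton]
      exact Nat.one_le_iff_ne_zero.2 (by positivity)
    · intro x hx
      refine ⟨0, Finset.mem_singleton_self _, ?_⟩
      rw [sub_zero, one_smul]
      exact hx
  · obtain ⟨i, hi⟩ : ∃ i, Nat.find hex = i + 1 := ⟨Nat.find hex - 1, by omega⟩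
    have hs1 : (1 / 4 : ℝ) ^ (i + 1) ≤ 1 := pow_le_one₀ (by norm_num) (by norm_num)
    have hspec := Nat.find_spec hex
    rw [hi] at hspec
    have hprev : n < (pts T (((1 / 4 : ℝ) ^ i) • K)).ncard := by
      have := Nat.find_min hex (m := i) (by omega)
      omega
    obtain ⟨F, hF1, hF2⟩ := cover_pack T hK hfin ((1 / 4 : ℝ) ^ (i + 1)) (by positivity) hs1
    refine ⟨(1 / 4 : ℝ) ^ (i + 1), by positivity, hspec, F, ?_, hF2⟩
    have hfour : ∀ c : ℝ, 0 < c → (pts T (c • K)).ncard ≤ 17 ^ d * (pts T ((c / 4) • K)).ncard := by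
      intro c hc
      have h1 := (pts_four T (cb_smul hK (c := c / 4) (by positivity))
        (pts_fin T hK hfin (c / 4) (by positivity))).2
      rw [smul_smul] at h1
      have h2 : 4 * (c / 4) = c := by ring
      rwa [h2] at h1
    have e1 := hfour ((1 / 4 : ℝ) ^ i) (by positivity)
    have e2 := hfour ((1 / 4 : ℝ) ^ i / 4) (by positivity)
    have e3 : (1 / 4 : ℝ) ^ i / 4 = (1 / 4) ^ (i + 1) := by rw [pow_succ]; ring
    rw [e3] at e1 e2
    set N := (pts T (((1 / 4 : ℝ) ^ (i + 1) / 4) • K)).ncard with hN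
    have hN1 : 0 < N := pts_one_le T hK hfin _ (by positivity)
    have h4 := (pts_four T hK hfin).2
    have h5 : F.card * N ≤ 4913 ^ d * M * N := by
      calc F.card * N ≤ (pts T ((4 : ℝ) • K)).ncard := hF1
        _ ≤ 17 ^ d * (pts T K).ncard := h4
        _ ≤ 17 ^ d * (M * n) := Nat.mul_le_mul_left _ hM
        _ ≤ 17 ^ d * (M * (17 ^ d * (17 ^ d * N))) := by
            apply Nat.mul_le_mul_left
            apply Nat.mul_le_mul_left
            exact hprev.le.trans (e1.trans (Nat.mul_le_mul_left _ e2))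
        _ = 4913 ^ d * M * N := by
            have : (4913 : ℕ) ^ d = 17 ^ d * (17 ^ d * 17 ^ d) := by
              rw [← mul_pow, ← mul_pow]; norm_num
            rw [this]; ring
    exact Nat.le_of_mul_le_mul_right h5 hN1

end R124.NF
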