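import Pool.Agent.R124.NF.Pos
import Pool.Agent.R124.NF.Shrink

set_option autoImplicit false

open MeasureTheory Matrix Set
open scoped Pointwise
open Pool.Agent.H845R2
open R124.IP

namespace R124.NF

variable {d : ℕ}

/-- the cube -/
def cube (d : ℕ) : Set (Fin d → ℝ) := {y | ∀ i, |y i| ≤ 1}

/-- a Euclidean ball -/
def rball (d : ℕ) : Set (Fin d → ℝ) := {y | y ⬝ᵥ y ≤ 2 * d}

lemma cube_eq : cube d = Metric.closedBall (0 : Fin d → ℝ) 1 := by
  ext y
  rw [mem_closedBall_zero_iff, pi_norm_le_iff_of_nonneg zero_le_one]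
  rfl

lemma cb_cube (d : ℕ) : CB (cube d) where
  comp := by rw [cube_eq]; exact isCompact_closedBall _ _
  conv := by rw [cube_eq]; exact convex_closedBall _ _
  symm := by
    intro x hx i
    rw [Pi.neg_apply, abs_neg]
    exact hx i
  int := by
    rw [cube_eq]
    exact ⟨0, Metric.ball_subset_interior_closedBall (Metric.mem_ball_self one_pos)⟩

lemma cube_sub_rball : cube d ⊆ rball d := by
  intro y hy
  show y ⬝ᵥ y ≤ 2 * d
  have h1 : y ⬝ᵥ y ≤ ∑ _i : Fin d, (1 : ℝ) := by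
    rw [dotProduct]
    apply Finset.sum_le_sum
    intro i _
    have := hy i
    rw [← abs_mul_abs_self]
    have h0 := abs_nonneg (y i)
    nlinarith
  rw [Finset.sum_const, Finset.card_univ, Fintype.card_fin, nsmul_eq_mul, mul_one] at h1
  have : (0 : ℝ) ≤ d := Nat.cast_nonneg _
  linarith

lemma sq_le_dot (y : Fin d → ℝ) (i : Fin d) : y i ^ 2 ≤ y ⬝ᵥ y := by
  rw [dotProduct, sq]
  exact Finset.single_le_sum (f := fun i => y i * y i) (fun j _ => mul_self_nonneg _)
    (Finset.mem_univ i)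

lemma cb_rball (d : ℕ) : CB (rball d) where
  comp := by
    apply Metric.isCompact_of_isClosed_isBounded
    · have : Continuous (fun y : Fin d → ℝ => y ⬝ᵥ y) := by
        unfold dotProduct
        fun_prop
      exact isClosed_le this continuous_const
    · rw [isBounded_iff_forall_norm_le]
      refine ⟨2 * d + 1, fun y hy => ?_⟩
      rw [pi_norm_le_iff_of_nonneg (by positivity)]
      intro i
      have h1 := sq_le_dot y i
      have h2 : y ⬝ᵥ y ≤ 2 * d := hy
      have hd : (0 : ℝ) ≤ d := Nat.cast_nonneg _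
      rw [Real.norm_eq_abs]
      apply abs_le_of_sq_le_sq _ (by positivity)
      nlinarith
  conv := by
    intro x hx y hy a b ha hb hab
    show (a • x + b • y) ⬝ᵥ (a • x + b • y) ≤ 2 * d
    have hx' : x ⬝ᵥ x ≤ 2 * d := hx
    have hy' : y ⬝ᵥ y ≤ 2 * d := hy
    have h0 : 0 ≤ (x - y) ⬝ᵥ (x - y) := by
      rw [dotProduct]
      exact Finset.sum_nonneg (fun i _ => mul_self_nonneg _)
    have h1 : (a • x + b • y) ⬝ᵥ (a • x + b • y)
        = a * (x ⬝ᵥ x) + b * (y ⬝ᵥ y) - a * b * ((x - y) ⬝ᵥ (x - y)) := by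
      have hb' : b = 1 - a := by linarith
      subst hb'
      simp only [dotProduct, Pi.add_apply, Pi.smul_apply, Pi.sub_apply, smul_eq_mul,
        Finset.mul_sum, ← Finset.sum_add_distrib, ← Finset.sum_sub_distrib]
      exact Finset.sum_congr rfl (fun i _ => by ring)
    rw [h1]
    have h2 : 0 ≤ a * b * ((x - y) ⬝ᵥ (x - y)) := by positivity
    nlinarith
  symm := by
    intro x hx
    show (-x) ⬝ᵥ (-x) ≤ 2 * d
    rw [neg_dotProduct_neg]
    exact hx
  int := (cb_cube d).int.mono (interior_mono cube_sub_rball)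

/-- lattice points in the ball against lattice points in the cube -/
lemma rball_pts {H : Type} [AddCommGroup H] (T : H →+ (Fin d → ℝ))
    (hfin : (pts T (cube d)).Finite) :
    (pts T (rball d)).Finite ∧ (pts T (rball d)).ncard ≤ 768 ^ d * (pts T (cube d)).ncard := by
  classical
  set F0 : Finset (Fin d → ℝ) := (cellSet d (8 * d)).image (fun v i => (v i : ℝ)) with hF0
  have hcard : F0.card ≤ 768 ^ d := by
    have h1 := cellSet_card d (8 * d)
    have h2 : (2 : ℝ) ^ (8 * d) * 3 ^ d = 768 ^ d := by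
      rw [pow_mul, ← mul_pow]; norm_num
    rw [h2] at h1
    have h3 : (cellSet d (8 * d)).card ≤ 768 ^ d := by exact_mod_cast h1
    exact Finset.card_image_le.trans h3
  obtain ⟨F, hF1, hF2⟩ := transfer T {y : Fin d → ℝ | ∀ i, |y i| ≤ 1 / 2} (cube d) F0
    (pts T (rball d))
    (by
      intro x hx
      have hx' : (T x) ⬝ᵥ (T x) ≤ 2 * d := hx
      refine ⟨fun i => ((round (T x i) : ℤ) : ℝ), ?_, fun i => ?_⟩
      · rw [hF0, Finset.mem_image]
        refine ⟨fun i => round (T x i), ?_, rfl⟩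
        have hsum : ∑ i, (round (T x i)).natAbs ≤ 8 * d := by
          have h1 : ((∑ i, (round (T x i)).natAbs : ℕ) : ℝ) ≤ 8 * d := by
            push_cast
            calc ∑ i, ((round (T x i)).natAbs : ℝ) ≤ ∑ i, 4 * (T x i) ^ 2 :=
                  Finset.sum_le_sum (fun i _ => round_le _)
              _ = 4 * ((T x) ⬝ᵥ (T x)) := by
                  rw [dotProduct, Finset.mul_sum]
                  exact Finset.sum_congr rfl (fun i _ => by ring)
              _ ≤ 4 * (2 * d) := by gcongr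
              _ = 8 * d := by ring
          exact_mod_cast h1
        rw [cellSet, Finset.mem_filter, Fintype.mem_piFinset]
        refine ⟨fun i => ?_, hsum⟩
        rw [Finset.mem_Icc]
        have h2 : (round (T x i)).natAbs ≤ 8 * d :=
          (Finset.single_le_sum (f := fun i => (round (T x i)).natAbs) (fun j _ => Nat.zero_le _)
            (Finset.mem_univ i)).trans hsum
        omega
      · rw [Pi.sub_apply]
        exact abs_sub_round _)
    (by
      intro m hm n hn i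
      rw [Pi.sub_apply]
      have h1 := hm i
      have h2 := hn i
      have h3 : |m i - n i| ≤ |m i| + |n i| := abs_sub _ _
      linarith)
  set L := hfin.toFinset with hL
  have hsub : pts T (rball d) ⊆ ((F + L : Finset H) : Set H) := by
    intro x hx
    obtain ⟨g, hg, hgx⟩ := hF2 x hx
    rw [Finset.mem_coe, Finset.mem_add]
    refine ⟨g, hg, x - g, ?_, by abel⟩
    rw [hL, Set.Finite.mem_toFinset]
    exact hgx
  refine ⟨(Finset.finite_toSet _).subset hsub, ?_⟩
  calc (pts T (rball d)).ncard ≤ ((F + L : Finset H) : Set H).ncard :=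
        Set.ncard_le_ncard hsub (Finset.finite_toSet _)
    _ = (F + L).card := Set.ncard_coe_finset _
    _ ≤ F.card * L.card := Finset.card_add_le
    _ ≤ 768 ^ d * (pts T (cube d)).ncard := by
        rw [hL, ← Set.ncard_eq_toFinset_card _ hfin]
        exact Nat.mul_le_mul_right _ (hF1.trans hcard)

/-- Normal forms: a parallelepiped and an ellipsoid. -/
theorem normalForm (hd : 1 ≤ d) {H : Type} [AddCommGroup H] (T : H →+ (Fin d → ℝ))
    (hinj : Function.Injective T) (K : Set (Fin d → ℝ)) (hK : CB K) (hfin : (pts T K).Finite)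
    (n : ℕ) (hn : (pts T K).ncard ≤ n) :
    (∃ W : Matrix (Fin d) (Fin d) ℝ, W.det ≠ 0 ∧ {x : H | ∀ i, |(W *ᵥ T x) i| ≤ 1}.ncard ≤ n ∧
      ∃ F : Finset H, F.card ≤ 2 ^ (60 * d) ∧
        ∀ x ∈ pts T K, ∃ g ∈ F, ∀ i, |(W *ᵥ T (x - g)) i| ≤ 1) ∧
    (∃ W : Matrix (Fin d) (Fin d) ℝ, W.det ≠ 0 ∧
      {x : H | (W *ᵥ T x) ⬝ᵥ (W *ᵥ T x) ≤ 1}.ncard ≤ n ∧
      ∃ F : Finset H, F.card ≤ 2 ^ (60 * d) ∧
        ∀ x ∈ pts T K, ∃ g ∈ F, (W *ᵥ T (x - g)) ⬝ᵥ (W *ᵥ T (x - g)) ≤ 1) := by
  classical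
  have hn1 : 1 ≤ n := by
    have := pts_one_le T hK hfin 1 zero_le_one
    rw [one_smul] at this
    exact this.trans hn
  obtain ⟨W, hW, ⟨F1, hF1c, hF1⟩, hbfin, hbcard⟩ := boxPos d hd T K hK hfin
  set T' : H →+ (Fin d → ℝ) := (W.mulVecLin.toAddMonoidHom).comp T with hT'
  have hT'a : ∀ x, T' x = W *ᵥ (T x) := fun x => rfl
  have hT'inj : Function.Injective T' := by
    intro x y h
    rw [hT'a, hT'a] at h
    have := congrArg (fun z => W⁻¹ *ᵥ z) h
    apply hinj
    simpa [Matrix.mulVec_mulVec, Matrix.nonsing_inv_mul _ (isUnit_iff_ne_zero.2 hW)] using this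
  have hcubefin : (pts T' (cube d)).Finite := hbfin
  have hcubecard : (pts T' (cube d)).ncard ≤ 3133440 ^ d * n :=
    le_trans hbcard (Nat.mul_le_mul_left _ hn)
  have hball := rball_pts T' hcubefin
  have hballcard : (pts T' (rball d)).ncard ≤ (768 ^ d * 3133440 ^ d) * n := by
    rw [mul_assoc]
    exact hball.2.trans (Nat.mul_le_mul_left _ hcubecard)
  constructor
  · obtain ⟨s, hs, hsn, F2, hF2c, hF2⟩ := shrink T' hT'inj (cb_cube d) hcubefin n (3133440 ^ d)
      hn1 hcubecard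
    have hiff : ∀ x : H, (∀ i, |((s⁻¹ • W) *ᵥ T x) i| ≤ 1) ↔ T' x ∈ s • cube d := by
      intro x
      rw [Set.mem_smul_set_iff_inv_smul_mem₀ hs.ne']
      show _ ↔ ∀ i, |(s⁻¹ • T' x) i| ≤ 1
      rw [hT'a, Matrix.smul_mulVec]
    refine ⟨s⁻¹ • W, ?_, ?_, F1 + F2, ?_, ?_⟩
    · rw [Matrix.det_smul]
      exact mul_ne_zero (pow_ne_zero _ (inv_ne_zero hs.ne')) hW
    · have : {x : H | ∀ i, |((s⁻¹ • W) *ᵥ T x) i| ≤ 1} = pts T' (s • cube d) := by
        ext x; exact hiff x
      rw [this]; exact hsn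
    · calc (F1 + F2).card ≤ F1.card * F2.card := Finset.card_add_le
        _ ≤ 55296 ^ d * (4913 ^ d * 3133440 ^ d) := Nat.mul_le_mul hF1c hF2c
        _ = 851259288453120 ^ d := by rw [← mul_pow, ← mul_pow]; norm_num
        _ ≤ 2 ^ (60 * d) := by
            rw [pow_mul]
            exact Nat.pow_le_pow_left (by norm_num) d
    · intro x hx
      obtain ⟨g, hg, hgx⟩ := hF1 x hx
      obtain ⟨g', hg', hgx'⟩ := hF2 (x - g) hgx
      refine ⟨g + g', Finset.add_mem_add hg hg', ?_⟩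
      rw [hiff, ← sub_sub]
      exact hgx'
  · obtain ⟨s, hs, hsn, F2, hF2c, hF2⟩ := shrink T' hT'inj (cb_rball d) hball.1 n
      (768 ^ d * 3133440 ^ d) hn1 hballcard
    have hd0 : (0 : ℝ) < d := by exact_mod_cast hd
    set c : ℝ := (Real.sqrt (2 * d))⁻¹ with hc
    have hsq : 0 < Real.sqrt (2 * d) := Real.sqrt_pos.2 (by positivity)
    have hc0 : 0 < c := inv_pos.2 hsq
    have hc2 : c * c = (2 * (d : ℝ))⁻¹ := by
      rw [hc, ← mul_inv, Real.mul_self_sqrt (by positivity)]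
    have hiff : ∀ x : H, (((c * s⁻¹) • W) *ᵥ T x) ⬝ᵥ (((c * s⁻¹) • W) *ᵥ T x) ≤ 1 ↔
        T' x ∈ s • rball d := by
      intro x
      rw [Set.mem_smul_set_iff_inv_smul_mem₀ hs.ne']
      show _ ↔ (s⁻¹ • T' x) ⬝ᵥ (s⁻¹ • T' x) ≤ 2 * d
      rw [Matrix.smul_mulVec, ← hT'a, mul_smul]
      rw [smul_dotProduct, dotProduct_smul (x := c), smul_eq_mul, smul_eq_mul, ← mul_assoc, hc2,
        inv_mul_le_iff₀ (by positivity), mul_one]
    refine ⟨(c * s⁻¹) • W, ?_, ?_, F1 + F2, ?_, ?_⟩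
    · rw [Matrix.det_smul]
      exact mul_ne_zero (pow_ne_zero _ (mul_ne_zero hc0.ne' (inv_ne_zero hs.ne'))) hW
    · have : {x : H | (((c * s⁻¹) • W) *ᵥ T x) ⬝ᵥ (((c * s⁻¹) • W) *ᵥ T x) ≤ 1}
          = pts T' (s • rball d) := by
        ext x; exact hiff x
      rw [this]; exact hsn
    · calc (F1 + F2).card ≤ F1.card * F2.card := Finset.card_add_le
        _ ≤ 55296 ^ d * (4913 ^ d * (768 ^ d * 3133440 ^ d)) := Nat.mul_le_mul hF1c hF2c
        _ = 653767133531996160 ^ d := by rw [← mul_pow, ← mul_pow, ← mul_pow]; norm_num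
        _ ≤ 2 ^ (60 * d) := by
            rw [pow_mul]
            exact Nat.pow_le_pow_left (by norm_num) d
    · intro x hx
      obtain ⟨g, hg, hgx⟩ := hF1 x hx
      have hgx2 : x - g ∈ pts T' (rball d) := cube_sub_rball hgx
      obtain ⟨g', hg', hgx'⟩ := hF2 (x - g) hgx2
      refine ⟨g + g', Finset.add_mem_add hg hg', ?_⟩
      rw [hiff, ← sub_sub]
      exact hgx'

end R124.NF
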