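import Pool.Agent.R124.NF.Ell
import Pool.Agent.R124.IP.Last

set_option autoImplicit false

open MeasureTheory Matrix Set
open scoped Pointwise
open Pool.Agent.H845R2
open R124.IP

namespace R124.NF

/-- A family of sets, some in each dimension. -/
abbrev Family : Type := (d : ℕ) → Set (Fin d → ℝ) → Prop

/-- Symmetric convex bodies. -/
def Body : Family := fun _ B =>
  Convex ℝ B ∧ IsCompact B ∧ (interior B).Nonempty ∧ ∀ x ∈ B, -x ∈ B

/-- Parallelepipeds centred at the origin. -/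
def Parallelepiped : Family := fun d B =>
  ∃ W : Matrix (Fin d) (Fin d) ℝ, W.det ≠ 0 ∧ B = {x | ∀ i, |(W *ᵥ x) i| ≤ 1}

/-- Ellipsoids centred at the origin. -/
def Ellipsoid : Family := fun d B =>
  ∃ W : Matrix (Fin d) (Fin d) ℝ, W.det ≠ 0 ∧ B = {x | (W *ᵥ x) ⬝ᵥ (W *ᵥ x) ≤ 1}

/-- The integer points of `B`. -/
def LP {d : ℕ} (B : Set (Fin d → ℝ)) : Set (Fin d → ℤ) := {x | (fun i => (x i : ℝ)) ∈ B}

/-- The conclusion of the conjecture for `A`, with a body from the family `𝓕`. -/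
def CoverBy (𝓕 : Family) (C K : ℝ) (A : Finset ℤ) : Prop :=
  ∃ (d : ℕ) (B : Set (Fin d → ℝ)) (v : Fin d → ℤ) (T : Finset ℤ),
    (d : ℝ) ≤ C * (1 + Real.log K) ∧ 𝓕 d B ∧ (LP B).ncard ≤ A.card ∧
    ((T.card : ℝ) ≤ C * K ^ C) ∧
    ∀ a ∈ A, ∃ t ∈ T, ∃ x ∈ LP B, a = t + ∑ i, v i * x i

/-- the embedding of the integer points -/
def castHom (d : ℕ) : (Fin d → ℤ) →+ (Fin d → ℝ) where
  toFun x := fun i => (x i : ℝ)
  map_zero' := by ext i; simp
  map_add' x y := by ext i; simp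

lemma castHom_inj (d : ℕ) : Function.Injective (castHom d) := by
  intro x y h
  ext i
  have := congrFun h i
  exact Int.cast_injective this

lemma lp_eq {d : ℕ} (B : Set (Fin d → ℝ)) : LP B = pts (castHom d) B := rfl

lemma lp_finite {d : ℕ} {B : Set (Fin d → ℝ)} (hB : Bornology.IsBounded B) : (LP B).Finite := by
  obtain ⟨R, hR⟩ := hB.exists_norm_le
  set N : ℕ := ⌈R⌉₊ with hN
  apply (Fintype.piFinset (fun _ : Fin d => Finset.Icc (-(N : ℤ)) N)).finite_toSet.subset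
  intro x hx
  rw [Finset.mem_coe, Fintype.mem_piFinset]
  intro i
  have h1 := hR _ hx
  have h2 := (norm_le_pi_norm (fun i => (x i : ℝ)) i).trans h1
  rw [Real.norm_eq_abs, abs_le] at h2
  have h3 : R ≤ N := Nat.le_ceil R
  rw [Finset.mem_Icc]
  constructor
  · have : (-(N : ℝ)) ≤ x i := by linarith
    exact_mod_cast this
  · have : (x i : ℝ) ≤ N := by linarith
    exact_mod_cast this

/-- the statement about the integer lattice -/
theorem lattice {d : ℕ} (hd : 1 ≤ d) (B : Set (Fin d → ℝ)) (hB : Body d B) (n : ℕ)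
    (hn : (LP B).ncard ≤ n) :
    (∃ E, Parallelepiped d E ∧ (LP E).ncard ≤ n ∧ ∃ F : Finset (Fin d → ℤ),
      F.card ≤ 2 ^ (60 * d) ∧ LP B ⊆ ⋃ g ∈ F, (fun x => g + x) '' LP E) ∧
    (∃ E, Ellipsoid d E ∧ (LP E).ncard ≤ n ∧ ∃ F : Finset (Fin d → ℤ),
      F.card ≤ 2 ^ (60 * d) ∧ LP B ⊆ ⋃ g ∈ F, (fun x => g + x) '' LP E) := by
  have hcb : CB B := ⟨hB.2.1, hB.1, hB.2.2.2, hB.2.2.1⟩
  obtain ⟨⟨W, hW, hWn, F, hF, hFc⟩, ⟨V, hV, hVn, G, hG, hGc⟩⟩ :=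
    normalForm hd (castHom d) (castHom_inj d) B hcb (lp_finite hB.2.1.isBounded) n hn
  refine ⟨⟨_, ⟨W, hW, rfl⟩, hWn, F, hF, ?_⟩, ⟨_, ⟨V, hV, rfl⟩, hVn, G, hG, ?_⟩⟩
  · intro x hx
    obtain ⟨g, hg, h⟩ := hFc x hx
    rw [Set.mem_iUnion₂]
    exact ⟨g, hg, x - g, h, by simp⟩
  · intro x hx
    obtain ⟨g, hg, h⟩ := hGc x hx
    rw [Set.mem_iUnion₂]
    exact ⟨g, hg, x - g, h, by simp⟩

/-- transfer of coverings -/
lemma coverBy_of (𝓕 : Family) (h0 : ∀ B : Set (Fin 0 → ℝ), Body 0 B → 𝓕 0 B)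
    (h1 : ∀ d : ℕ, 1 ≤ d → ∀ B, Body d B → ∀ n : ℕ, (LP B).ncard ≤ n →
      ∃ E, 𝓕 d E ∧ (LP E).ncard ≤ n ∧ ∃ F : Finset (Fin d → ℤ),
        F.card ≤ 2 ^ (60 * d) ∧ LP B ⊆ ⋃ g ∈ F, (fun x => g + x) '' LP E)
    (C : ℝ) (hC : 0 < C) (K : ℝ) (hK : 1 ≤ K) (A : Finset ℤ) (h : CoverBy Body C K A) :
    CoverBy 𝓕 (C * Real.exp (60 * C) + 61 * C) K A := by
  classical
  obtain ⟨d, B, v, T, hd, hB, hBA, hT, hcov⟩ := h
  have hK0 : 0 < K := by linarith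
  have hlog : 0 ≤ Real.log K := Real.log_nonneg hK
  set C' : ℝ := C * Real.exp (60 * C) + 61 * C with hC'
  have he : 0 < C * Real.exp (60 * C) := by positivity
  have hCC' : C ≤ C' := by rw [hC']; linarith
  have h61 : 61 * C ≤ C' := by rw [hC']; linarith
  have heC' : C * Real.exp (60 * C) ≤ C' := by rw [hC']; linarith
  have hdim : (d : ℝ) ≤ C' * (1 + Real.log K) := by
    refine hd.trans ?_
    gcongr
  rcases Nat.eq_zero_or_pos d with hd0 | hd1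
  · subst hd0
    refine ⟨0, B, v, T, hdim, h0 B hB, hBA, ?_, hcov⟩
    refine hT.trans ?_
    gcongr
  · obtain ⟨E, hE, hEn, F, hF, hFc⟩ := h1 d hd1 B hB A.card hBA
    refine ⟨d, E, v, (T ×ˢ F).image (fun p => p.1 + ∑ i, v i * p.2 i), hdim, hE, hEn, ?_, ?_⟩
    · have h2 : (((T ×ˢ F).image (fun p => p.1 + ∑ i, v i * p.2 i)).card : ℝ)
          ≤ T.card * F.card := by
        have := Finset.card_image_le (s := T ×ˢ F) (f := fun p => p.1 + ∑ i, v i * p.2 i)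
        rw [Finset.card_product] at this
        exact_mod_cast this
      have h3 : (F.card : ℝ) ≤ 2 ^ (60 * d) := by exact_mod_cast hF
      have h4 := two_pow_le hK d 60 hd
      push_cast at h4
      calc (((T ×ˢ F).image (fun p => p.1 + ∑ i, v i * p.2 i)).card : ℝ)
          ≤ T.card * F.card := h2
        _ ≤ (C * K ^ C) * (Real.exp (60 * C) * K ^ (60 * C)) := by
            gcongr
            exact h3.trans h4
        _ = (C * Real.exp (60 * C)) * (K ^ C * K ^ (60 * C)) := by ring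
        _ = (C * Real.exp (60 * C)) * K ^ (61 * C) := by
            rw [← Real.rpow_add hK0]; ring_nf
        _ ≤ C' * K ^ C' := by gcongr
    · intro a ha
      obtain ⟨t, ht, x, hx, hax⟩ := hcov a ha
      have h2 := hFc hx
      rw [Set.mem_iUnion₂] at h2
      obtain ⟨g, hg, y, hy, hgy⟩ := h2
      refine ⟨t + ∑ i, v i * g i, ?_, y, hy, ?_⟩
      · rw [Finset.mem_image]
        exact ⟨(t, g), Finset.mem_product.2 ⟨ht, hg⟩, rfl⟩
      · rw [hax, ← hgy, add_assoc, ← Finset.sum_add_distrib]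
        congr 1
        exact Finset.sum_congr rfl (fun i _ => by simp only [Pi.add_apply]; ring)

lemma body_zero (B : Set (Fin 0 → ℝ)) (hB : Body 0 B) : B = Set.univ := by
  obtain ⟨x, hx⟩ := hB.2.2.1
  ext y
  have : y = x := Subsingleton.elim _ _
  rw [this]
  simp [interior_subset hx]

lemma paral_zero (B : Set (Fin 0 → ℝ)) (hB : Body 0 B) : Parallelepiped 0 B := by
  refine ⟨1, by simp, ?_⟩
  rw [body_zero B hB]
  ext x
  simp

lemma ell_zero (B : Set (Fin 0 → ℝ)) (hB : Body 0 B) : Ellipsoid 0 B := by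
  refine ⟨1, by simp, ?_⟩
  rw [body_zero B hB]
  ext x
  simp [dotProduct]

/-- The coverings are equivalent. -/
theorem transferCover (C : ℝ) (hC : 0 < C) (K : ℝ) (hK : 1 ≤ K) (A : Finset ℤ)
    (h : CoverBy Body C K A) :
    CoverBy Parallelepiped (C * Real.exp (60 * C) + 61 * C) K A ∧
      CoverBy Ellipsoid (C * Real.exp (60 * C) + 61 * C) K A :=
  ⟨coverBy_of _ paral_zero (fun _ hd B hB n hn => (lattice hd B hB n hn).1) C hC K hK A h,
   coverBy_of _ ell_zero (fun _ hd B hB n hn => (lattice hd B hB n hn).2) C hC K hK A h⟩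

lemma body_of_preimage {d : ℕ} {W : Matrix (Fin d) (Fin d) ℝ} (hW : W.det ≠ 0)
    {K : Set (Fin d → ℝ)} (hK : CB K) : Body d {x | W *ᵥ x ∈ K} := by
  have hW' : W⁻¹.det ≠ 0 := by
    rw [Matrix.det_nonsing_inv, Ring.inverse_eq_inv']
    exact inv_ne_zero hW
  have hcb := cb_image hK W⁻¹ hW'
  have heq : {x | W *ᵥ x ∈ K} = W⁻¹.mulVec '' K := by
    ext x
    constructor
    · intro hx
      refine ⟨W *ᵥ x, hx, ?_⟩
      rw [Matrix.mulVec_mulVec, Matrix.nonsing_inv_mul _ (isUnit_iff_ne_zero.2 hW),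
        Matrix.one_mulVec]
    · rintro ⟨y, hy, rfl⟩
      show W *ᵥ (W⁻¹ *ᵥ y) ∈ K
      rw [Matrix.mulVec_mulVec, Matrix.mul_nonsing_inv _ (isUnit_iff_ne_zero.2 hW),
        Matrix.one_mulVec]
      exact hy
  rw [heq]
  exact ⟨hcb.conv, hcb.comp, hcb.int, hcb.symm⟩

lemma body_paral {d : ℕ} {B : Set (Fin d → ℝ)} (hB : Parallelepiped d B) : Body d B := by
  obtain ⟨W, hW, rfl⟩ := hB
  exact body_of_preimage hW (cb_cube d)

lemma body_univ_zero : Body 0 Set.univ := by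
  refine ⟨convex_univ, isCompact_univ, by simp, fun x _ => Set.mem_univ _⟩

lemma body_ell {d : ℕ} {B : Set (Fin d → ℝ)} (hB : Ellipsoid d B) : Body d B := by
  obtain ⟨W, hW, rfl⟩ := hB
  rcases Nat.eq_zero_or_pos d with hd | hd
  · subst hd
    have : {x : Fin 0 → ℝ | (W *ᵥ x) ⬝ᵥ (W *ᵥ x) ≤ 1} = Set.univ := by
      ext x
      simp [dotProduct]
    rw [this]
    exact body_univ_zero
  · have hd0 : (0 : ℝ) < d := by exact_mod_cast hd
    set c : ℝ := Real.sqrt (2 * d) with hc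
    have hc0 : 0 < c := Real.sqrt_pos.2 (by positivity)
    have hcc : c * c = 2 * (d : ℝ) := Real.mul_self_sqrt (by positivity)
    have hW' : (c • W).det ≠ 0 := by
      rw [Matrix.det_smul]
      exact mul_ne_zero (pow_ne_zero _ hc0.ne') hW
    have h := body_of_preimage hW' (cb_rball d)
    have heq : {x | (W *ᵥ x) ⬝ᵥ (W *ᵥ x) ≤ 1} = {x | (c • W) *ᵥ x ∈ rball d} := by
      ext x
      show _ ↔ ((c • W) *ᵥ x) ⬝ᵥ ((c • W) *ᵥ x) ≤ 2 * d
      rw [Matrix.smul_mulVec, smul_dotProduct, dotProduct_smul (x := c), smul_eq_mul, smul_eq_mul,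
        ← mul_assoc, hcc]
      constructor
      · intro h
        have h' : (W *ᵥ x) ⬝ᵥ (W *ᵥ x) ≤ 1 := h
        calc 2 * (d : ℝ) * ((W *ᵥ x) ⬝ᵥ (W *ᵥ x)) ≤ 2 * d * 1 := by gcongr
          _ = 2 * d := mul_one _
      · intro h
        have h2 : 2 * (d : ℝ) * ((W *ᵥ x) ⬝ᵥ (W *ᵥ x)) ≤ 2 * d * 1 := by rw [mul_one]; exact h
        exact le_of_mul_le_mul_left h2 (by positivity)
    rw [heq]
    exact h

/-- The statement about the integer lattice, in all dimensions. -/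
theorem lattice_all {d : ℕ} (B : Set (Fin d → ℝ)) (hB : Body d B) (n : ℕ)
    (hn : (LP B).ncard ≤ n) :
    (∃ E, Parallelepiped d E ∧ (LP E).ncard ≤ n ∧ ∃ F : Finset (Fin d → ℤ),
      F.card ≤ 2 ^ (60 * d) ∧ LP B ⊆ ⋃ g ∈ F, (fun x => g + x) '' LP E) ∧
    (∃ E, Ellipsoid d E ∧ (LP E).ncard ≤ n ∧ ∃ F : Finset (Fin d → ℤ),
      F.card ≤ 2 ^ (60 * d) ∧ LP B ⊆ ⋃ g ∈ F, (fun x => g + x) '' LP E) := by
  rcases Nat.eq_zero_or_pos d with hd | hd
  · subst hd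
    have h0 : LP B ⊆ ⋃ g ∈ ({0} : Finset (Fin 0 → ℤ)), (fun x => g + x) '' LP B := by
      intro x hx
      rw [Set.mem_iUnion₂]
      exact ⟨0, by simp, x, hx, zero_add x⟩
    exact ⟨⟨B, paral_zero B hB, hn, {0}, by simp, h0⟩,
      ⟨B, ell_zero B hB, hn, {0}, by simp, h0⟩⟩
  · exact lattice hd B hB n hn

lemma coverBy_mono {𝓕 𝓖 : Family} (h : ∀ d B, 𝓕 d B → 𝓖 d B) {C K : ℝ} {A : Finset ℤ}
    (hA : CoverBy 𝓕 C K A) : CoverBy 𝓖 C K A := by
  obtain ⟨d, B, v, T, h1, h2, h3⟩ := hA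
  exact ⟨d, B, v, T, h1, h _ _ h2, h3⟩

lemma one_le_K {K : ℝ} {A : Finset ℤ} (hne : A.Nonempty)
    (hdoub : ((A + A).card : ℝ) ≤ K * A.card) : 1 ≤ K := by
  apply one_le_of_doubling (A := (A : Set ℤ)) A.finite_toSet (Finset.coe_nonempty.2 hne)
  rw [← Finset.coe_add, Set.ncard_coe_finset, Set.ncard_coe_finset]
  exact hdoub

lemma q_iff (𝓕 : Family) (h1 : ∀ d B, 𝓕 d B → Body d B)
    (h2 : ∀ C : ℝ, 0 < C → ∀ K : ℝ, 1 ≤ K → ∀ A : Finset ℤ, CoverBy Body C K A →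
      CoverBy 𝓕 (C * Real.exp (60 * C) + 61 * C) K A) :
    (∃ C : ℝ, 0 < C ∧ ∀ (K : ℝ) (A : Finset ℤ), A.Nonempty →
      (((A + A).card : ℝ) ≤ K * (A.card : ℝ)) → CoverBy Body C K A) ↔
    (∃ C : ℝ, 0 < C ∧ ∀ (K : ℝ) (A : Finset ℤ), A.Nonempty →
      (((A + A).card : ℝ) ≤ K * (A.card : ℝ)) → CoverBy 𝓕 C K A) := by
  constructor
  · rintro ⟨C, hC, h⟩
    refine ⟨C * Real.exp (60 * C) + 61 * C, by positivity, fun K A hA hK => ?_⟩
    exact h2 C hC K (one_le_K hA hK) A (h K A hA hK)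
  · rintro ⟨C, hC, h⟩
    exact ⟨C, hC, fun K A hA hK => coverBy_mono h1 (h K A hA hK)⟩

lemma frozen_iff (C K : ℝ) (A : Finset ℤ) :
    (∃ (d : ℕ) (B : Set (Fin d → ℝ)) (v : Fin d → ℤ) (T : Finset ℤ),
        (d : ℝ) ≤ C * (1 + Real.log K) ∧
        Convex ℝ B ∧ IsCompact B ∧ (interior B).Nonempty ∧ (∀ x ∈ B, -x ∈ B) ∧
        ({x : Fin d → ℤ | (fun i => (x i : ℝ)) ∈ B}.ncard ≤ A.card) ∧
        ((T.card : ℝ) ≤ C * K ^ C) ∧
        ∀ a ∈ A, ∃ t ∈ T, ∃ x : Fin d → ℤ,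
          (fun i => (x i : ℝ)) ∈ B ∧ a = t + ∑ i, v i * x i) ↔ CoverBy Body C K A := by
  constructor
  · rintro ⟨d, B, v, T, h1, h2, h3, h4, h5, h6, h7, h8⟩
    exact ⟨d, B, v, T, h1, ⟨h2, h3, h4, h5⟩, h6, h7, h8⟩
  · rintro ⟨d, B, v, T, h1, ⟨h2, h3, h4, h5⟩, h6, h7, h8⟩
    exact ⟨d, B, v, T, h1, h2, h3, h4, h5, h6, h7, h8⟩

end R124.NF
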