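import Pool.Agent.R124.IP.Dim1

set_option autoImplicit false

open MeasureTheory Matrix Set
open scoped Pointwise
open Pool.Agent.H845R2
open R124.IP

namespace R124.NF

variable {d : ℕ}

/-- the parallelepiped position of a symmetric convex body, for lattice points -/
theorem boxPos (d : ℕ) (hd : 1 ≤ d) {H : Type} [AddCommGroup H] (T : H →+ (Fin d → ℝ))
    (K : Set (Fin d → ℝ)) (hK : CB K) (hfin : (pts T K).Finite) :
    ∃ W : Matrix (Fin d) (Fin d) ℝ, W.det ≠ 0 ∧
      (∃ F : Finset H, F.card ≤ 55296 ^ d ∧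
        ∀ x ∈ pts T K, ∃ g ∈ F, ∀ i, |(W *ᵥ T (x - g)) i| ≤ 1) ∧
      {x : H | ∀ i, |(W *ᵥ T x) i| ≤ 1}.Finite ∧
      {x : H | ∀ i, |(W *ᵥ T x) i| ≤ 1}.ncard ≤ 3133440 ^ d * (pts T K).ncard := by
  classical
  have hd0 : (0 : ℝ) < d := by exact_mod_cast hd
  have hd1 : (1 : ℝ) ≤ d := by exact_mod_cast hd
  have hsd : 0 < Real.sqrt d := Real.sqrt_pos.2 hd0
  have hsq : Real.sqrt d * Real.sqrt d = d := Real.mul_self_sqrt hd0.le
  obtain ⟨W, a, hW, ha, hout, hinn, hvol1, hvol2⟩ := position hK hd
  have hK2 : CB (W.mulVec '' K) := cb_image hK W hW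
  set K2 := W.mulVec '' K with hK2def
  set M1 := K2 ∩ {y | ∀ i, |y i| ≤ 1 / 2} with hM1
  have hWinj : ∀ x y, W *ᵥ x = W *ᵥ y → x = y := by
    intro x y h
    have := congrArg (fun z => W⁻¹ *ᵥ z) h
    simpa [Matrix.mulVec_mulVec, Matrix.nonsing_inv_mul _ (isUnit_iff_ne_zero.2 hW)] using this
  set T2 : H →+ (Fin d → ℝ) := (W.mulVecLin.toAddMonoidHom).comp T with hT2
  have hT2a : ∀ x, T2 x = W *ᵥ (T x) := fun x => rfl
  have hpts : pts T2 K2 = pts T K := by
    ext x
    constructor
    · rintro ⟨k, hk, hkx⟩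
      have : k = T x := hWinj _ _ hkx
      show T x ∈ K
      rw [← this]; exact hk
    · intro hx
      exact ⟨T x, hx, rfl⟩
  -- the sides of the box
  set e : Fin d → ℝ := fun i => max (min 1 (2 * Real.sqrt d * a i)) (a i / (d * Real.sqrt d))
    with he
  have hepos : ∀ i, 0 < e i := fun i =>
    lt_of_lt_of_le (by have := ha i; positivity) (le_max_right _ _)
  let T3 : H →+ (Fin d → ℝ) :=
    { toFun := fun x i => T2 x i / e i
      map_zero' := by funext i; simp
      map_add' := fun x y => by funext i; simp [add_div] }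
  have hT3a : ∀ x i, T3 x i = T2 x i / e i := fun x i => rfl
  have hbox : ∀ x, x ∈ box T3 1 ↔ ∀ i, |T2 x i| ≤ e i := by
    intro x
    show ‖T3 x‖ ≤ 1 ↔ _
    rw [pi_norm_le_iff_of_nonneg zero_le_one]
    refine forall_congr' (fun i => ?_)
    rw [hT3a, Real.norm_eq_abs, abs_div, abs_of_pos (hepos i), div_le_one (hepos i)]
  -- properties of M1
  have hK2pos : 0 < (volume K2).toReal := ENNReal.toReal_pos hK2.vol_pos.ne' hK2.vol_lt.ne
  have hM1c : Convex ℝ M1 := by
    apply hK2.conv.inter
    intro x hx y hy s t hs ht hst i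
    have h1 := hx i
    have h2 := hy i
    simp only [Pi.add_apply, Pi.smul_apply, smul_eq_mul]
    rw [abs_le] at h1 h2 ⊢
    constructor <;> nlinarith [h1.1, h1.2, h2.1, h2.2]
  have hM1s : ∀ x ∈ M1, -x ∈ M1 := by
    rintro x ⟨h1, h2⟩
    refine ⟨hK2.symm x h1, fun i => ?_⟩
    rw [Pi.neg_apply, abs_neg]
    exact h2 i
  have hcubeclosed : ∀ c : ℝ, IsClosed {y : Fin d → ℝ | ∀ i, |y i| ≤ c} := by
    intro c
    have : {y : Fin d → ℝ | ∀ i, |y i| ≤ c} = ⋂ i, {y | |y i| ≤ c} := by
      ext y; simp
    rw [this]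
    exact isClosed_iInter fun i => isClosed_le (continuous_apply i).abs continuous_const
  have hM1m : MeasurableSet M1 := hK2.meas.inter (hcubeclosed _).measurableSet
  have hM1r : 0 < (volume M1).toReal := by
    by_contra h
    have : (volume M1).toReal = 0 := le_antisymm (not_lt.1 h) ENNReal.toReal_nonneg
    rw [this, mul_zero] at hvol2
    linarith
  have hM1pos : 0 < volume M1 := by
    by_contra h
    rw [not_lt, nonpos_iff_eq_zero] at h
    rw [h] at hM1r
    simp at hM1r
  -- step A
  have stepA : ∃ F : Finset H, F.card ≤ 55296 ^ d ∧ ∀ x ∈ pts T2 K2, ∃ g ∈ F, x - g ∈ box T3 1 := by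
    obtain ⟨F, -, hF1, hF2⟩ := vcover M1 K2 ((3 / 2 : ℝ) • K2) hM1c hM1s hM1m hM1pos
      (by
        rw [Measure.addHaar_smul]
        exact ENNReal.mul_ne_top (by simp) hK2.vol_lt.ne)
      (by
        intro x hx m hm
        have := mem_smul_of_cb hK2 hx hm.1 1 (1 / 2) (by norm_num) (by norm_num) (by norm_num)
        rw [one_smul] at this
        norm_num at this ⊢
        exact this)
    obtain ⟨F', hF'1, hF'2⟩ := transfer T2 M1 {y | ∀ i, |y i| ≤ e i} F (pts T2 K2)
      (fun x hx => hF2 _ hx)
      (by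
        intro m hm n hn i
        rw [Pi.sub_apply]
        have h1 := hm.2 i
        have h2 := hn.2 i
        have h3 := hout m hm.1 i
        have h4 := hout n hn.1 i
        have h5 : |m i - n i| ≤ |m i| + |n i| := abs_sub _ _
        refine le_trans ?_ (le_max_left _ _)
        apply le_min <;> linarith)
    refine ⟨F', ?_, fun x hx => ?_⟩
    · have h1 : (F.card : ℝ) ≤ 55296 ^ d := by
        rw [vol_smul K2 _ (by norm_num)] at hF1
        have h2 : (F.card : ℝ) * (volume M1).toReal ≤ 55296 ^ d * (volume M1).toReal := by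
          calc (F.card : ℝ) * (volume M1).toReal ≤ 2 ^ d * ((3 / 2) ^ d * (volume K2).toReal) := hF1
            _ ≤ 2 ^ d * ((3 / 2) ^ d * (18432 ^ d * (volume M1).toReal)) := by gcongr
            _ = 55296 ^ d * (volume M1).toReal := by
                rw [← mul_assoc, ← mul_assoc, ← mul_pow, ← mul_pow]; norm_num
        exact le_of_mul_le_mul_right h2 hM1r
      have h2 : F.card ≤ 55296 ^ d := by exact_mod_cast h1
      omega
    · obtain ⟨g, hg, hgx⟩ := hF'2 x hx
      exact ⟨g, hg, (hbox _).2 hgx⟩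
  -- step B
  have stepB : ∃ F : Finset H, F.card ≤ 184320 ^ d ∧
      ∀ x ∈ box T3 1, ∃ g ∈ F, T2 (x - g) ∈ (4 : ℝ) • K2 := by
    obtain ⟨F, -, hF1, hF2⟩ := vcover M1 {y : Fin d → ℝ | ∀ i, |y i| ≤ 1}
      (Set.Icc (fun _ => (-(5 / 4) : ℝ)) (fun _ => 5 / 4)) hM1c hM1s hM1m hM1pos
      (by
        rw [Real.volume_Icc_pi]
        exact ENNReal.prod_ne_top (fun i _ => by simp))
      (by
        intro x hx m hm
        constructor
        · intro i
          have h1 := hx i
          have h2 := hm.2 i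
          simp only [Pi.add_apply, Pi.smul_apply, smul_eq_mul]
          rw [abs_le] at h1 h2
          linarith [h1.1, h2.1]
        · intro i
          have h1 := hx i
          have h2 := hm.2 i
          simp only [Pi.add_apply, Pi.smul_apply, smul_eq_mul]
          rw [abs_le] at h1 h2
          linarith [h1.2, h2.2])
    obtain ⟨F', hF'1, hF'2⟩ := transfer T2 ((2 : ℝ) • K2) ((4 : ℝ) • K2) F (box T3 1)
      (by
        intro x hx
        rw [hbox] at hx
        -- split the vector
        set q : Fin d → ℝ := fun i => if e i ≤ 1 then T2 x i else 0 with hq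
        set z : Fin d → ℝ := fun i => if e i ≤ 1 then 0 else T2 x i with hz
        have hqz : T2 x = q + z := by
          funext i
          simp only [hq, hz, Pi.add_apply]
          split_ifs <;> simp
        have hq1 : ∀ i, |q i| ≤ 1 := by
          intro i
          simp only [hq]
          split_ifs with h
          · exact (hx i).trans h
          · simp
        have hz1 : z ∈ K2 := by
          apply hinn
          intro i
          simp only [hz]
          split_ifs with h
          · rw [abs_zero]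
            have := ha i
            positivity
          · refine (hx i).trans ?_
            push Not at h
            simp only [he] at h ⊢
            rcases lt_max_iff.1 h with h1 | h1
            · exact absurd (min_le_left _ _) (not_le.2 h1)
            · apply max_le _ le_rfl
              exact (min_le_left _ _).trans h1.le
        obtain ⟨f, hf, hfq⟩ := hF2 q hq1
        refine ⟨f, hf, ?_⟩
        have h1 : T2 x - f = (1 : ℝ) • (q - f) + (1 : ℝ) • z := by
          rw [hqz, one_smul, one_smul]; abel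
        rw [h1]
        have := mem_smul_of_cb hK2 hfq.1 hz1 1 1 (by norm_num) (by norm_num) (by norm_num)
        norm_num at this ⊢
        exact this)
      (by
        rintro _ ⟨k, hk, rfl⟩ _ ⟨l, hl, rfl⟩
        have := mem_smul_of_cb hK2 hk (hK2.symm l hl) 2 2 (by norm_num) (by norm_num) (by norm_num)
        simp only
        rw [sub_eq_add_neg, ← smul_neg]
        norm_num at this ⊢
        exact this)
    refine ⟨F', ?_, hF'2⟩
    have hcube : (volume (Set.Icc (fun _ : Fin d => (-(5 / 4) : ℝ)) (fun _ => 5 / 4))).toReal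
        = (5 / 2) ^ d := by
      rw [Real.volume_Icc_pi_toReal (fun i => by norm_num)]
      simp only [Finset.prod_const, Finset.card_univ, Fintype.card_fin]
      norm_num
    rw [hcube] at hF1
    have h1 : (F.card : ℝ) ≤ 184320 ^ d := by
      have h3 : (1 : ℝ) ≤ 36864 ^ d * (volume M1).toReal := by
        calc (1 : ℝ) = 2 ^ d * (1 / 2) ^ d := by rw [← mul_pow]; norm_num
          _ ≤ 2 ^ d * (18432 ^ d * (volume M1).toReal) := by
              have := hvol1.trans hvol2
              gcongr
          _ = 36864 ^ d * (volume M1).toReal := by rw [← mul_assoc, ← mul_pow]; norm_num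
      have h2 : (F.card : ℝ) * (volume M1).toReal ≤ 184320 ^ d * (volume M1).toReal := by
        calc (F.card : ℝ) * (volume M1).toReal ≤ 2 ^ d * (5 / 2) ^ d := hF1
          _ = 5 ^ d * 1 := by rw [← mul_pow]; norm_num
          _ ≤ 5 ^ d * (36864 ^ d * (volume M1).toReal) := by gcongr
          _ = 184320 ^ d * (volume M1).toReal := by rw [← mul_assoc, ← mul_pow]; norm_num
      exact le_of_mul_le_mul_right h2 hM1r
    have h2 : F.card ≤ 184320 ^ d := by exact_mod_cast h1
    omega
  obtain ⟨F3, hF3c, hF3⟩ := stepA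
  obtain ⟨F1, hF1c, hF1⟩ := stepB
  obtain ⟨F2, hF2c, hF2⟩ := cover_four T2 hK2
  set Lf : Finset H := hfin.toFinset with hLf
  have hLfc : Lf.card = (pts T K).ncard := by
    rw [hLf, Set.ncard_eq_toFinset_card _ hfin]
  have hsub : box T3 1 ⊆ ((F1 + (F2 + Lf) : Finset H) : Set H) := by
    intro x hx
    obtain ⟨g, hg, hgx⟩ := hF1 x hx
    obtain ⟨g', hg', hgx'⟩ := hF2 (x - g) hgx
    have h1 : x - g - g' ∈ Lf := by
      rw [hLf, Set.Finite.mem_toFinset, ← hpts]
      exact hgx'
    rw [Finset.mem_coe, Finset.mem_add]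
    refine ⟨g, hg, g' + (x - g - g'), Finset.add_mem_add hg' h1, ?_⟩
    abel
  have hboxfin : (box T3 1).Finite := (Finset.finite_toSet _).subset hsub
  have hboxcard : (box T3 1).ncard ≤ 3133440 ^ d * (pts T K).ncard := by
    calc (box T3 1).ncard ≤ ((F1 + (F2 + Lf) : Finset H) : Set H).ncard :=
          Set.ncard_le_ncard hsub (Finset.finite_toSet _)
      _ = (F1 + (F2 + Lf)).card := Set.ncard_coe_finset _
      _ ≤ F1.card * (F2.card * Lf.card) :=
          Finset.card_add_le.trans (Nat.mul_le_mul_left _ Finset.card_add_le)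
      _ ≤ 184320 ^ d * (17 ^ d * Lf.card) := by gcongr
      _ = 3133440 ^ d * (pts T K).ncard := by
          rw [hLfc, ← mul_assoc, ← mul_pow]
          norm_num
  have hset : {x : H | ∀ i, |((Matrix.diagonal (fun i => (e i)⁻¹) * W) *ᵥ T x) i| ≤ 1} = box T3 1 := by
    ext x
    rw [hbox, Set.mem_setOf_eq]
    refine forall_congr' (fun i => ?_)
    rw [← Matrix.mulVec_mulVec, Matrix.mulVec_diagonal, abs_mul, abs_inv, abs_of_pos (hepos i),
      inv_mul_le_iff₀ (hepos i), mul_one, hT2a]
  refine ⟨Matrix.diagonal (fun i => (e i)⁻¹) * W, ?_, ⟨F3, hF3c, ?_⟩, ?_, ?_⟩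
  · rw [Matrix.det_mul, Matrix.det_diagonal]
    exact mul_ne_zero (Finset.prod_ne_zero_iff.2 fun i _ => inv_ne_zero (hepos i).ne') hW
  · intro x hx
    rw [← hpts] at hx
    obtain ⟨g, hg, hgx⟩ := hF3 x hx
    refine ⟨g, hg, ?_⟩
    rw [← hset] at hgx
    exact hgx
  · rw [hset]; exact hboxfin
  · rw [hset]; exact hboxcard

end R124.NF
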